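import Mathlib
import Pool.Agent.W484.BB.Small

/-!
# The second moment inequality with an arbitrary algebraic number
-/

set_option autoImplicit false
set_option linter.unusedSectionVars false

namespace Pool.Agent.W484.AS

open NumberField Module Pool.Agent.H925R2 Pool.Agent.H485R3 Pool.Agent.H204R3.CM
  Pool.Agent.H868R3.TwoOdd Pool.Agent.H194R3.CM Pool.Agent.H194R3.Tate IntermediateField
  Pool.Agent.W484.BB

/-- The group theoretic core: orthogonality. -/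
theorem sum_sq_le_sum {X : Type*} {G : Type*} [Group G] [Fintype G] [MulAction G X]
    (inv : X → X) (hG : ∀ (g : G) (x : X), g • inv x = inv (g • x))
    (u : X → ℝ) (hua : ∀ x, u (inv x) = -u x)
    (hflip : ∀ x y, y ≠ x → y ≠ inv x →
      ∃ g : G, (g • x = x ∧ g • y = inv y) ∨ (g • x = inv x ∧ g • y = y) ∨
        (g • x = y ∧ g • y = inv x))
    {n : ℕ} (x : Fin n → X) (hx : ∀ j k, x k ≠ inv (x j)) :
    ∑ j, ∑ g : G, u (g • x j) ^ 2 ≤ ∑ g : G, (∑ j, u (g • x j)) ^ 2 := by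
  classical
  let A : X → X → ℝ := fun x y => ∑ g : G, u (g • x) * u (g • y)
  have hAnn : ∀ j k, 0 ≤ A (x j) (x k) := by
    intro j k
    by_cases h : x k = x j
    · rw [h]
      exact Finset.sum_nonneg fun g _ => mul_self_nonneg _
    · exact (corr_zero inv hG u hua _ _ (hflip _ _ h (hx j k))).ge
  have h2 : ∑ g : G, (∑ j, u (g • x j)) ^ 2 = ∑ j, ∑ k, A (x j) (x k) := by
    simp only [A]
    simp only [pow_two, Finset.sum_mul_sum]
    rw [Finset.sum_comm]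
    exact Finset.sum_congr rfl fun j _ => Finset.sum_comm
  have h3 : ∀ j, ∑ g : G, u (g • x j) ^ 2 = A (x j) (x j) := by
    intro j
    exact Finset.sum_congr rfl fun g _ => pow_two _
  calc ∑ j, ∑ g : G, u (g • x j) ^ 2 = ∑ j, A (x j) (x j) := Finset.sum_congr rfl fun j _ => h3 j
    _ ≤ ∑ j, ∑ k, A (x j) (x k) := by
        refine Finset.sum_le_sum fun j _ => ?_
        exact Finset.single_le_sum (f := fun k => A (x j) (x k)) (fun k _ => hAnn j k)
          (Finset.mem_univ j)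
    _ = _ := h2.symm

/-- The sum of a function over the orbit of an element under the Galois group. -/
theorem sum_orbit (p : ℕ) [Fact p.Prime] {L : Type*} [Field L] [NumberField L] [IsGalois ℚ L]
    (e : L →ₐ[ℚ] PadicAlgCl p) (r : L) (f : PadicAlgCl p → ℝ) :
    ((minpoly ℚ r).natDegree : ℝ) * ∑ g : L ≃ₐ[ℚ] L, f (e (g r)) =
      Fintype.card (L ≃ₐ[ℚ] L) * (((minpoly ℚ r).aroots (PadicAlgCl p)).map f).sum := by
  classical
  have hint : IsIntegral ℚ r := Algebra.IsIntegral.isIntegral r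
  have hm0 : minpoly ℚ r ≠ 0 := minpoly.ne_zero hint
  have hsplit : ((minpoly ℚ r).map (algebraMap ℚ L)).Splits := Normal.splits inferInstance r
  let R : Finset L := ((minpoly ℚ r).aroots L).toFinset
  have hR : ∀ z, z ∈ R ↔ ∃ g : L ≃ₐ[ℚ] L, g r = z := by
    intro z
    rw [Multiset.mem_toFinset, Polynomial.mem_aroots]
    constructor
    · rintro ⟨_, hz⟩
      have h1 : IsConjRoot ℚ r z := isConjRoot_of_aeval_eq_zero hint hz
      rw [isConjRoot_iff_exists_algEquiv] at h1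
      obtain ⟨σ, hσ⟩ := h1
      refine ⟨σ.symm, ?_⟩
      rw [← hσ, AlgEquiv.symm_apply_apply]
    · rintro ⟨g, rfl⟩
      refine ⟨hm0, ?_⟩
      have h5 := congrArg g (minpoly.aeval ℚ r)
      rw [map_zero] at h5
      rw [← h5]
      exact (Polynomial.aeval_algHom_apply (g : L →ₐ[ℚ] L) r _)
  have hnd : ((minpoly ℚ r).aroots L).Nodup :=
    Polynomial.nodup_aroots_iff_of_splits hm0 hsplit |>.2 (minpoly.irreducible hint).separable
  have hcard : R.card = (minpoly ℚ r).natDegree := by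
    rw [Multiset.toFinset_card_of_nodup hnd, Polynomial.aroots_def, ← hsplit.natDegree_eq_card_roots,
      Polynomial.natDegree_map]
  have h1 : ∀ z ∈ R, ∑ g : L ≃ₐ[ℚ] L, f (e (g z)) = ∑ g : L ≃ₐ[ℚ] L, f (e (g r)) := by
    intro z hz
    obtain ⟨g₀, rfl⟩ := (hR z).1 hz
    exact Fintype.sum_equiv (Equiv.mulRight g₀) _ _ fun g => rfl
  have h2 : ∑ z ∈ R, ∑ g : L ≃ₐ[ℚ] L, f (e (g z)) =
      (minpoly ℚ r).natDegree * ∑ g : L ≃ₐ[ℚ] L, f (e (g r)) := by
    rw [Finset.sum_congr rfl h1, Finset.sum_const, hcard, nsmul_eq_mul]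
  have h3 : ∑ z ∈ R, ∑ g : L ≃ₐ[ℚ] L, f (e (g z)) =
      Fintype.card (L ≃ₐ[ℚ] L) * ∑ z ∈ R, f (e z) := by
    rw [Finset.sum_comm]
    have h4 : ∀ g : L ≃ₐ[ℚ] L, ∑ z ∈ R, f (e (g z)) = ∑ z ∈ R, f (e z) := by
      intro g
      refine Finset.sum_bij' (fun z _ => g z) (fun z _ => g.symm z) ?_ ?_ ?_ ?_ ?_
      · intro z hz
        obtain ⟨g', rfl⟩ := (hR z).1 hz
        exact (hR _).2 ⟨g * g', rfl⟩
      · intro z hz
        obtain ⟨g', rfl⟩ := (hR z).1 hz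
        exact (hR _).2 ⟨g.symm * g', rfl⟩
      · intro z _; exact g.symm_apply_apply z
      · intro z _; exact g.apply_symm_apply z
      · intro z _; rfl
    rw [Finset.sum_congr rfl (fun g _ => h4 g), Finset.sum_const, Finset.card_univ, nsmul_eq_mul]
  have h4 : (((minpoly ℚ r).aroots (PadicAlgCl p)).map f).sum = ∑ z ∈ R, f (e z) := by
    have h5 : (minpoly ℚ r).aroots (PadicAlgCl p) = ((minpoly ℚ r).aroots L).map e := by
      have h6 := hsplit.roots_map (e : L →+* PadicAlgCl p)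
      rw [Polynomial.map_map] at h6
      have h7 : (e : L →+* PadicAlgCl p).comp (algebraMap ℚ L) = algebraMap ℚ (PadicAlgCl p) :=
        RingHom.ext_rat _ _
      rw [h7] at h6
      rw [Polynomial.aroots_def, h6]
      rfl
    rw [h5, Multiset.map_map]
    have h8 : ((minpoly ℚ r).aroots L) = R.val := by
      rw [Multiset.toFinset_val, hnd.dedup]
    rw [h8]
    rfl
  rw [← h2, h3, h4]

/-- The sum of the squares of the differences between the slopes of the conjugates of `ρ` and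
`b`. -/
noncomputable def dispersion (p : ℕ) [Fact p.Prime] (a b : ℕ) (ρ : ℂ) : ℝ :=
  (((minpoly ℚ ρ).aroots (PadicAlgCl p)).map
    (fun x => (- Real.logb ((p : ℝ) ^ a) ‖x‖ - b) ^ 2)).sum

variable {I : Type} (p : ℕ) [Fact p.Prime] {K : I → Type} [∀ i, Field (K i)]
  [∀ i, NumberField (K i)] [∀ i, IsCMField (K i)]

theorem dev_pow_weight (a b : ℕ) (ha : 0 < a) (x : PadicAlgCl p) :
    dev p (((p : ℚ) ^ a) ^ (2 * b)) x ^ 2 =
      4 * Real.log ((p : ℝ) ^ a) ^ 2 * (- Real.logb ((p : ℝ) ^ a) ‖x‖ - b) ^ 2 := by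
  have hp1 : (1 : ℝ) < (p : ℝ) ^ a :=
    one_lt_pow₀ (by exact_mod_cast (Fact.out : p.Prime).one_lt) ha.ne'
  have hlog : 0 < Real.log ((p : ℝ) ^ a) := Real.log_pos hp1
  have h5 : Real.log ‖((((p : ℚ) ^ a) ^ (2 * b) : ℚ) : PadicAlgCl p)‖ =
      - ((2 * b : ℕ) : ℝ) * Real.log ((p : ℝ) ^ a) := by
    have h6 : ((((p : ℚ) ^ a) ^ (2 * b) : ℚ) : PadicAlgCl p) =
        ((((p : ℚ) ^ a : ℚ)) : PadicAlgCl p) ^ (2 * b) := by push_cast; rfl
    rw [h6, norm_pow, norm_pow_cast, Real.log_pow, Real.log_inv]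
    ring
  unfold dev
  rw [h5]
  have h7 : Real.log ‖x‖ = Real.logb ((p : ℝ) ^ a) ‖x‖ * Real.log ((p : ℝ) ^ a) := by
    rw [Real.logb]
    field_simp
  rw [h7]
  push_cast
  ring

/-- **The second moment inequality for a relation with an algebraic number of even weight.** -/
theorem moment_of_rel [Finite I] (a : ℕ) (ha : 0 < a) (π : ∀ i, K i)
    (hweil : ∀ i, ∀ φ : K i →+* ℂ, ‖φ (π i)‖ ^ 2 = (p : ℝ) ^ a)
    (hflip : ∀ x y : Σ i, (K i →+* ℂ), y ≠ x → y ≠ bar x → Flipped x y)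
    (b : ℕ) (ρ : ℂ) (hρ : IsIntegral ℤ ρ) (hρ0 : ρ ≠ 0)
    {n : ℕ} (x : Fin n → Σ i, (K i →+* ℂ)) (hx : ∀ k l, x l ≠ bar (x k))
    (M : ℕ) (hM : 0 < M)
    (hrel : ((∏ k, (x k).2 (π (x k).1)) * ρ) ^ (2 * M) = ((p : ℂ) ^ a) ^ (M * (n + 2 * b))) :
    ((minpoly ℚ ρ).natDegree : ℝ) * ∑ k, spread p a (π (x k).1) / finrank ℚ (K (x k).1) ≤
      4 * dispersion p a b ρ := by
  classical
  cases nonempty_fintype I
  obtain ⟨L, hL1, hL2, j, h, r, hr⟩ := exists_galois_with (K := K) ρ hρ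
  let e : L →ₐ[ℚ] PadicAlgCl p := IsAlgClosed.lift
  have hp0 : (0 : ℝ) < (p : ℝ) ^ a :=
    pow_pos (by exact_mod_cast (Fact.out : p.Prime).pos) _
  have hp1 : (1 : ℝ) < (p : ℝ) ^ a :=
    one_lt_pow₀ (by exact_mod_cast (Fact.out : p.Prime).one_lt) ha.ne'
  have hlog : 0 < Real.log ((p : ℝ) ^ a) := Real.log_pos hp1
  have hq : ∀ _i : I, (0 : ℚ) < (p : ℚ) ^ a :=
    fun _ => pow_pos (by exact_mod_cast (Fact.out : p.Prime).pos) _
  have hr0 : r ≠ 0 := by
    rintro rfl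
    rw [map_zero] at hr
    exact hρ0 hr.symm
  have hweil' : ∀ i, ∀ φ : K i →+* ℂ, ‖φ (π i)‖ ^ 2 = (((p : ℚ) ^ a : ℚ) : ℝ) := by
    intro i φ
    rw [hweil i φ]
    push_cast
    rfl
  choose W hW using fun k => h (x k).1 (x k).2
  have hrelL : ((∏ k, W k (π (x k).1)) * r) ^ (2 * M) =
      ((((p : ℚ) ^ a : ℚ)) : L) ^ (M * (n + 2 * b)) := by
    apply j.injective
    rw [map_pow, map_mul, map_prod, map_pow, map_ratCast, hr]
    have h1 : ∀ k, j (W k (π (x k).1)) = (x k).2 (π (x k).1) := by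
      intro k
      rw [← hW k]
      rfl
    simp only [h1]
    rw [hrel]
    push_cast
    rfl
  have hπ0 : ∀ i, π i ≠ 0 := by
    intro i h0
    obtain ⟨φ⟩ : Nonempty (K i →+* ℂ) := inferInstance
    have h1 := hweil i φ
    rw [h0, map_zero, norm_zero] at h1
    norm_num at h1
    exact hp0.ne h1
  let y : Fin n → Σ i, (K i →+* L) := fun k => ⟨(x k).1, W k⟩
  have hy : ∀ k l, y l ≠ inj (y k) := by
    intro k l hkl
    apply hx k l
    have h1 : (⟨(x l).1, j.comp (W l)⟩ : Σ i, (K i →+* ℂ)) = ⟨(x k).1, j.comp (cbar (W k))⟩ :=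
      congrArg (fun z : Σ i, (K i →+* L) => (⟨z.1, j.comp z.2⟩ : Σ i, (K i →+* ℂ))) hkl
    rw [comp_cbar, hW, hW] at h1
    exact h1
  let u : (Σ i, (K i →+* L)) → ℝ := slope p (fun _ => (p : ℚ) ^ a) π e
  have hu : ∀ x, u (inj x) = - u x := slope_inj p hq hweil' e
  have hsum : ∀ g : L ≃ₐ[ℚ] L,
      ∑ k, u (g • y k) = - dev p (((p : ℚ) ^ a) ^ (2 * b)) (e (g r)) := by
    intro g
    have h1 := congrArg (fun z => Real.log ‖e (g z)‖) hrelL
    simp only [map_pow, map_mul, map_prod, norm_pow, norm_mul, norm_prod, Real.log_pow,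
      map_ratCast] at h1
    have hne : ∀ k, ‖e (g (W k (π (x k).1)))‖ ≠ 0 := by
      intro k
      rw [norm_ne_zero_iff, Ne, map_eq_zero, map_eq_zero, map_eq_zero]
      exact hπ0 _
    have hner : ‖e (g r)‖ ≠ 0 := by
      rw [norm_ne_zero_iff, Ne, map_eq_zero, map_eq_zero]
      exact hr0
    rw [Real.log_mul (Finset.prod_ne_zero_iff.2 fun k _ => hne k) hner,
      Real.log_prod (fun k _ => hne k)] at h1
    have h3 : ∀ k, u (g • y k) =
        2 * Real.log ‖e (g (W k (π (x k).1)))‖ -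
          Real.log ‖(((p : ℚ) ^ a : ℚ) : PadicAlgCl p)‖ := fun k => rfl
    rw [Finset.sum_congr rfl (fun k _ => h3 k), Finset.sum_sub_distrib, Finset.sum_const,
      Finset.card_univ, Fintype.card_fin, nsmul_eq_mul, ← Finset.mul_sum]
    have h6 : ((((p : ℚ) ^ a) ^ (2 * b) : ℚ) : PadicAlgCl p) =
        ((((p : ℚ) ^ a : ℚ)) : PadicAlgCl p) ^ (2 * b) := by push_cast; rfl
    unfold dev
    rw [h6, norm_pow, Real.log_pow]
    have hM' : (M : ℝ) ≠ 0 := by exact_mod_cast hM.ne'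
    apply mul_left_cancel₀ hM'
    push_cast at h1 ⊢
    linarith
  have hGinj : ∀ (g : L ≃ₐ[ℚ] L) (x : Σ i, (K i →+* L)), g • inj x = inj (g • x) := by
    rintro g ⟨i, φ⟩
    rfl
  have key := sum_sq_le_sum (G := L ≃ₐ[ℚ] L) inj hGinj u hu (flip_lift j hflip) y hy
  have hN : (0 : ℝ) < Fintype.card (L ≃ₐ[ℚ] L) := by
    exact_mod_cast Fintype.card_pos
  have h1 : ∀ k, ∑ g : L ≃ₐ[ℚ] L, u (g • y k) ^ 2 =
      Fintype.card (L ≃ₐ[ℚ] L) * Real.log ((p : ℝ) ^ a) ^ 2 *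
        (spread p a (π (x k).1) / finrank ℚ (K (x k).1)) := by
    intro k
    have h2 := sum_gal p j h a ha π e (y k)
    have h3 : (0 : ℝ) < finrank ℚ (K (x k).1) := by
      exact_mod_cast finrank_pos
    have h4 : (finrank ℚ (K (x k).1) : ℝ) * ∑ g : L ≃ₐ[ℚ] L, u (g • y k) ^ 2 =
      Fintype.card (L ≃ₐ[ℚ] L) * (Real.log ((p : ℝ) ^ a) ^ 2 * spread p a (π (x k).1)) := h2
    field_simp
    linarith
  have h2 : ∑ g : L ≃ₐ[ℚ] L, (∑ k, u (g • y k)) ^ 2 = ∑ g : L ≃ₐ[ℚ] L,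
      4 * Real.log ((p : ℝ) ^ a) ^ 2 * (- Real.logb ((p : ℝ) ^ a) ‖e (g r)‖ - b) ^ 2 := by
    refine Finset.sum_congr rfl fun g _ => ?_
    rw [hsum g, neg_sq, dev_pow_weight p a b ha]
  have h3 := sum_orbit p e r (fun x => (- Real.logb ((p : ℝ) ^ a) ‖x‖ - b) ^ 2)
  have h4 : minpoly ℚ ρ = minpoly ℚ r := by
    rw [← hr]
    exact minpoly.algHom_eq (RingHom.toRatAlgHom j) j.injective r
  have h5 : dispersion p a b ρ = (((minpoly ℚ r).aroots (PadicAlgCl p)).map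
    (fun x => (- Real.logb ((p : ℝ) ^ a) ‖x‖ - b) ^ 2)).sum := by
    unfold dispersion
    rw [h4]
  rw [← h5] at h3
  rw [Finset.sum_congr rfl (fun k _ => h1 k), ← Finset.mul_sum, h2, ← Finset.mul_sum] at key
  have h6 := mul_le_mul_of_nonneg_left key
    (show (0 : ℝ) ≤ ((minpoly ℚ r).natDegree : ℝ) by positivity)
  have h7 : ((minpoly ℚ r).natDegree : ℝ) * (4 * Real.log ((p : ℝ) ^ a) ^ 2 *
      ∑ g : L ≃ₐ[ℚ] L, (- Real.logb ((p : ℝ) ^ a) ‖e (g r)‖ - b) ^ 2) =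
      4 * Real.log ((p : ℝ) ^ a) ^ 2 * (Fintype.card (L ≃ₐ[ℚ] L) * dispersion p a b ρ) := by
    rw [← h3]
    ring
  rw [h7] at h6
  rw [h4]
  have h8 : 0 < (Fintype.card (L ≃ₐ[ℚ] L) : ℝ) * Real.log ((p : ℝ) ^ a) ^ 2 := by positivity
  refine le_of_mul_le_mul_left ?_ h8
  calc _ = _ := ?_
    _ ≤ _ := h6
    _ = _ := ?_
  · ring
  · ring

end Pool.Agent.W484.AS
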