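import Mathlib
import Pool.Agent.W484.AS.Moment
import Pool.Agent.W484.BB.SmallMain

/-!
# Products of divisor classes on the first factor and Tate classes on the second factor
-/

set_option autoImplicit false
set_option linter.unusedSectionVars false

namespace Pool.Agent.W484.AS

open NumberField Module Pool.Agent.H925R2 Pool.Agent.H485R3 Pool.Agent.H204R3.CM
  Pool.Agent.H868R3.TwoOdd Pool.Agent.H194R3.CM Pool.Agent.H194R3.Tate IntermediateField
  ExteriorAlgebra Pool.Agent.H194R3.Weil Pool.Agent.W484.BB TensorProduct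

section general

variable {V : Type*} [AddCommGroup V] [Module ℂ V]

/-- The span of the products of `k` divisor classes. -/
def divSpan (F : V →ₗ[ℂ] V) (q : ℂ) (k : ℕ) : Submodule ℂ (ExteriorAlgebra ℂ V) :=
  Submodule.span ℂ {t | ∃ Z : Fin k → ExteriorAlgebra ℂ V,
    (∀ l, IsDivisorClass F q (Z l)) ∧ t = (List.ofFn Z).prod}

theorem mul_mem_divSpan (F : V →ₗ[ℂ] V) (q : ℂ) (k : ℕ) (D : ExteriorAlgebra ℂ V)
    (hD : IsDivisorClass F q D) (t : ExteriorAlgebra ℂ V) (ht : t ∈ divSpan F q k) :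
    D * t ∈ divSpan F q (k + 1) := by
  have h : divSpan F q k ≤ (divSpan F q (k + 1)).comap (LinearMap.mulLeft ℂ D) := by
    refine Submodule.span_le.2 ?_
    rintro _ ⟨Z, hZ, rfl⟩
    refine Submodule.subset_span ⟨Fin.cons D Z, ?_, ?_⟩
    · intro l
      refine Fin.cases ?_ (fun l => ?_) l
      · exact hD
      · exact hZ l
    · rw [LinearMap.mulLeft_apply, List.ofFn_cons, List.prod_cons]
  exact h ht

variable {H : Type*} [AddCommGroup H] [Module ℂ H]

/-- The span of the `(Z 0 * ... * Z (k - 1)) ⊗ h`, `Z l` divisor classes, `h` a Tate class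
over some extension (in degree `2 b`). -/
def products (F : V →ₗ[ℂ] V) (G : H →ₗ[ℂ] H) (q : ℂ) (k b : ℕ) :
    Submodule ℂ (ExteriorAlgebra ℂ V ⊗[ℂ] H) :=
  Submodule.span ℂ {t | ∃ (Z : Fin k → ExteriorAlgebra ℂ V) (h : H),
    (∀ l, IsDivisorClass F q (Z l)) ∧ (∃ N : ℕ, 0 < N ∧ (G ^ N) h = (q ^ b) ^ N • h) ∧
    t = (List.ofFn Z).prod ⊗ₜ h}

theorem tmul_mem_products (F : V →ₗ[ℂ] V) (G : H →ₗ[ℂ] H) (q : ℂ) (k b : ℕ) (h : H)
    (hh : ∃ N : ℕ, 0 < N ∧ (G ^ N) h = (q ^ b) ^ N • h) (x : ExteriorAlgebra ℂ V)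
    (hx : x ∈ divSpan F q k) : x ⊗ₜ[ℂ] h ∈ products F G q k b := by
  have h' : divSpan F q k ≤ (products F G q k b).comap
      ((TensorProduct.mk ℂ (ExteriorAlgebra ℂ V) H).flip h) := by
    refine Submodule.span_le.2 ?_
    rintro _ ⟨Z, hZ, rfl⟩
    exact Submodule.subset_span ⟨Z, h, hZ, hh, rfl⟩
  exact h' hx

theorem components_left {U : Type*} [AddCommGroup U] [Module ℂ U] {r : ℕ}
    (T : U →ₗ[ℂ] U) (G : H →ₗ[ℂ] H) (b : Basis (Fin r) ℂ U) (c : Fin r → ℂ)
    (hb : ∀ j, T (b j) = c j • b j) (μ : ℂ) (u : U ⊗[ℂ] H)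
    (hu : TensorProduct.map T G u = μ • u) :
    ∃ h : Fin r → H, u = ∑ j, b j ⊗ₜ[ℂ] h j ∧ ∀ j, c j • G (h j) = μ • h j := by
  have h1 : TensorProduct.map G T (TensorProduct.comm ℂ U H u) =
      μ • TensorProduct.comm ℂ U H u := by
    rw [← map_smul, ← hu]
    have h2 : TensorProduct.map G T ∘ₗ (TensorProduct.comm ℂ U H).toLinearMap =
        (TensorProduct.comm ℂ U H).toLinearMap ∘ₗ TensorProduct.map T G := by
      ext u h
      simp
    exact LinearMap.congr_fun h2 u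
  obtain ⟨x, hx, hx2⟩ := components G T b c hb μ _ h1
  refine ⟨x, ?_, hx2⟩
  have h3 := congrArg (TensorProduct.comm ℂ U H).symm hx
  rw [LinearEquiv.symm_apply_apply, map_sum] at h3
  rw [h3]
  exact Finset.sum_congr rfl fun j _ => by simp

end general

variable {I : Type} (p : ℕ) [Fact p.Prime] {K : I → Type} [∀ i, Field (K i)]
  [∀ i, NumberField (K i)] [∀ i, IsCMField (K i)]

/-- The dispersion of the slopes of `ρ` is small. -/
def Small (a b : ℕ) (c : ℝ) (ρ : ℂ) : Prop :=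
  2 * dispersion p a b ρ < c * (minpoly ℚ ρ).natDegree

theorem dispersion_nonneg (a b : ℕ) (ρ : ℂ) : 0 ≤ dispersion p a b ρ := by
  unfold dispersion
  refine Multiset.sum_nonneg ?_
  intro x hx
  rw [Multiset.mem_map] at hx
  obtain ⟨y, _, rfl⟩ := hx
  exact sq_nonneg _

/-- **Existence of a pair, even degree.** -/
theorem exists_pair_even [Finite I] (a : ℕ) (ha : 0 < a) (π : ∀ i, K i)
    (hweil : ∀ i, ∀ φ : K i →+* ℂ, ‖φ (π i)‖ ^ 2 = (p : ℝ) ^ a)
    (hflip : ∀ x y : Σ i, (K i →+* ℂ), y ≠ x → y ≠ bar x → Flipped x y)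
    (c : ℝ) (hc : ∀ i, c * finrank ℚ (K i) ≤ spread p a (π i))
    (S : Set ℂ) (hS : ∀ μ ∈ S, ∃ N : ℕ, 0 < N ∧ μ ^ (2 * N) = ((p : ℂ) ^ a) ^ N)
    (b : ℕ) (ρ : ℂ) (hρ : IsIntegral ℤ ρ) (hρ0 : ρ ≠ 0) (hρc : Small p a b c ρ)
    (hSρ : S.Nonempty → Small p a b (c / 2) ρ)
    (k s : ℕ) (hs : 0 < s) (ys : List ((Σ i, (K i →+* ℂ)) ⊕ S))
    (hlen : ys.length = 2 * k + 2)
    (hrel : ((ys.map (val π S)).prod * ρ) ^ s = (((p : ℂ) ^ a) ^ (k + 1 + b)) ^ s) :
    ¬ ys.Pairwise (fun y y' => ¬ Good ((p : ℂ) ^ a) (val π S y) (val π S y')) := by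
  intro hpw
  have hq0 : ((p : ℂ) ^ a) ≠ 0 := by
    have : (p : ℂ) ≠ 0 := by exact_mod_cast (Fact.out : p.Prime).ne_zero
    exact pow_ne_zero _ this
  have hdeg : (0 : ℝ) < (minpoly ℚ ρ).natDegree := by
    exact_mod_cast minpoly.natDegree_pos hρ.tower_top
  have hc0 : 0 < c := by
    by_contra h
    have h1 := dispersion_nonneg p a b ρ
    have h2 : c * (minpoly ℚ ρ).natDegree ≤ 0 :=
      mul_nonpos_of_nonpos_of_nonneg (not_lt.1 h) hdeg.le
    unfold Small at hρc
    linarith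
  have hcl : ∀ i, c ≤ spread p a (π i) / finrank ℚ (K i) := by
    intro i
    have h3 : (0 : ℝ) < finrank ℚ (K i) := by exact_mod_cast finrank_pos
    rw [le_div_iff₀ h3]
    exact hc i
  obtain ⟨xs, hxs⟩ : ∃ xs, xs = ys.filterMap Sum.getLeft? := ⟨_, rfl⟩
  obtain ⟨zs, hzs⟩ : ∃ zs, zs = ys.filterMap Sum.getRight? := ⟨_, rfl⟩
  obtain ⟨hprod, hlen2⟩ := filterMap_prod π S ys
  rw [← hxs, ← hzs] at hprod hlen2
  -- no conjugate pairs among the `xs`
  have hpx : xs.Pairwise (fun x x' => x' ≠ bar x) := by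
    rw [hxs]
    refine List.Pairwise.filterMap _ ?_ hpw
    intro y y' h x hx x' hx' hxx
    rcases y with y | y
    · rcases y' with y' | y'
      · simp only [Sum.getLeft?_inl, Option.some.injEq] at hx hx'
        subst hx hx'
        apply h
        refine ⟨1, one_pos, ?_⟩
        rw [pow_one, pow_one, hxx]
        exact val_bar p a π hweil y
      · simp at hx'
    · simp at hx
  -- at most one supersingular eigenvalue
  have hpz : zs.length ≤ 1 := by
    by_contra hlt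
    have hpz2 : zs.Pairwise (fun z z' : S => False) := by
      rw [hzs]
      refine List.Pairwise.filterMap _ ?_ hpw
      intro y y' h x hx x' hx'
      rcases y with y | y
      · simp at hx
      · rcases y' with y' | y'
        · simp at hx'
        · apply h
          obtain ⟨N, hN, h1⟩ := hS y y.2
          obtain ⟨N', hN', h2⟩ := hS y' y'.2
          refine ⟨2 * N * N', by positivity, ?_⟩
          change ((y : ℂ) * (y' : ℂ)) ^ (2 * N * N') = ((p : ℂ) ^ a) ^ (2 * N * N')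
          generalize (p : ℂ) ^ a = Q at h1 h2 ⊢
          have h3 : (y : ℂ) ^ (2 * N * N') = Q ^ (N * N') := by
            rw [pow_mul, h1, ← pow_mul]
          have h4 : (y' : ℂ) ^ (2 * N * N') = Q ^ (N * N') := by
            rw [show 2 * N * N' = 2 * N' * N by ring, pow_mul, h2, ← pow_mul, mul_comm N']
          rw [mul_pow, h3, h4, ← pow_add]
          congr 1
          ring
    match zs, hlt, hpz2 with
    | [], hlt, _ => simp at hlt
    | [z], hlt, _ => simp at hlt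
    | z :: z' :: zs, _, h =>
      rw [List.pairwise_cons] at h
      exact h.1 z' (by simp)
  have hx : ∀ l m : Fin xs.length, xs.get m ≠ bar (xs.get l) := by
    rw [List.pairwise_iff_get] at hpx
    intro l m
    rcases lt_trichotomy l m with h | h | h
    · exact hpx l m h
    · rw [h]
      exact (bar_ne _).symm
    · intro h1
      apply hpx m l h
      rw [h1, bar_bar]
  have hxprod : ∏ l : Fin xs.length, (xs.get l).2 (π (xs.get l).1) =
      (xs.map (fun x => x.2 (π x.1))).prod := by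
    rw [← List.prod_ofFn]
    congr 1
    apply List.ext_getElem
    · simp
    · intro i h1 h2
      simp
  have hsumc : (xs.length : ℝ) * c ≤
      ∑ l : Fin xs.length, spread p a (π (xs.get l).1) / finrank ℚ (K (xs.get l).1) := by
    have h4 : ∑ _l : Fin xs.length, c ≤
        ∑ l : Fin xs.length, spread p a (π (xs.get l).1) / finrank ℚ (K (xs.get l).1) :=
      Finset.sum_le_sum (fun l _ => hcl _)
    rw [Finset.sum_const, Finset.card_univ, Fintype.card_fin, nsmul_eq_mul] at h4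
    exact h4
  rcases Nat.eq_zero_or_pos zs.length with hz | hz
  · -- no supersingular eigenvalue
    have hzs0 : zs = [] := List.length_eq_zero_iff.1 hz
    have hxl : xs.length = 2 * k + 2 := by omega
    rw [hzs0, List.map_nil, List.prod_nil, mul_one] at hprod
    have key := moment_of_rel p a ha π hweil hflip b ρ hρ hρ0 (fun l => xs.get l) hx s hs (by
      rw [hxprod, ← hprod, mul_comm 2 s, pow_mul, hrel, ← pow_mul, ← pow_mul, hxl]
      congr 1
      ring)
    have hxr : (xs.length : ℝ) = 2 * k + 2 := by exact_mod_cast hxl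
    rw [hxr] at hsumc
    have h5 : (0 : ℝ) ≤ k := Nat.cast_nonneg k
    have h6 : 2 * c ≤ (2 * k + 2) * c := by nlinarith
    have h7 := mul_le_mul_of_nonneg_left (h6.trans hsumc) hdeg.le
    unfold Small at hρc
    nlinarith
  · -- one supersingular eigenvalue
    have hz1 : zs.length = 1 := by omega
    obtain ⟨z, rfl⟩ := List.length_eq_one_iff.1 hz1
    have hxl : xs.length = 2 * k + 1 := by omega
    obtain ⟨N, hN, hzN⟩ := hS z z.2
    rw [List.map_singleton, List.prod_singleton] at hprod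
    have key := moment_of_rel p a ha π hweil hflip b ρ hρ hρ0 (fun l => xs.get l) hx (s * N)
      (Nat.mul_pos hs hN) (by
        rw [hxprod]
        have h6 : ((ys.map (val π S)).prod * ρ) ^ (2 * (s * N)) =
            ((p : ℂ) ^ a) ^ ((k + 1 + b) * (2 * (s * N))) := by
          generalize (p : ℂ) ^ a = Q at hrel ⊢
          rw [show 2 * (s * N) = s * (2 * N) by ring, pow_mul, hrel, ← pow_mul, ← pow_mul]
        have h7 : (z : ℂ) ^ (2 * (s * N)) = ((p : ℂ) ^ a) ^ (s * N) := by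
          rw [show 2 * (s * N) = 2 * N * s by ring, pow_mul, hzN, ← pow_mul]
          congr 1
          ring
        have h8 : ((ys.map (val π S)).prod * ρ) ^ (2 * (s * N)) =
            ((xs.map (fun x => x.2 (π x.1))).prod * ρ) ^ (2 * (s * N)) *
              ((p : ℂ) ^ a) ^ (s * N) := by
          rw [hprod, ← h7]
          ring
        rw [h8] at h6
        have h9 : ((p : ℂ) ^ a) ^ ((k + 1 + b) * (2 * (s * N))) =
            ((p : ℂ) ^ a) ^ (s * N * (xs.length + 2 * b)) * ((p : ℂ) ^ a) ^ (s * N) := by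
          rw [← pow_add, hxl]
          congr 1
          ring
        rw [h9] at h6
        exact mul_right_cancel₀ (pow_ne_zero _ hq0) h6)
    have hne : S.Nonempty := ⟨z, z.2⟩
    have hxr : (xs.length : ℝ) = 2 * k + 1 := by exact_mod_cast hxl
    rw [hxr] at hsumc
    have h5 : (0 : ℝ) ≤ k := Nat.cast_nonneg k
    have h6 : c ≤ (2 * k + 1) * c := by nlinarith
    have h7 := mul_le_mul_of_nonneg_left (h6.trans hsumc) hdeg.le
    have h8 := hSρ hne
    unfold Small at h8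
    nlinarith

variable {V : Type*} [AddCommGroup V] [Module ℂ V]

/-- **Products of eigenvectors.** -/
theorem list_mem_divSpan [Finite I] (a : ℕ) (ha : 0 < a) (π : ∀ i, K i)
    (hweil : ∀ i, ∀ φ : K i →+* ℂ, ‖φ (π i)‖ ^ 2 = (p : ℝ) ^ a)
    (hflip : ∀ x y : Σ i, (K i →+* ℂ), y ≠ x → y ≠ bar x → Flipped x y)
    (c : ℝ) (hc : ∀ i, c * finrank ℚ (K i) ≤ spread p a (π i))
    (S : Set ℂ) (hS : ∀ μ ∈ S, ∃ N : ℕ, 0 < N ∧ μ ^ (2 * N) = ((p : ℂ) ^ a) ^ N)
    (b : ℕ) (ρ : ℂ) (hρ : IsIntegral ℤ ρ) (hρ0 : ρ ≠ 0) (hρc : Small p a b c ρ)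
    (hSρ : S.Nonempty → Small p a b (c / 2) ρ) (F : V →ₗ[ℂ] V) :
    ∀ (k s : ℕ), 0 < s → ∀ L : List (V × ((Σ i, (K i →+* ℂ)) ⊕ S)), L.length = 2 * k →
      (∀ e ∈ L, F e.1 = val π S e.2 • e.1) →
      ((L.map (fun e => val π S e.2)).prod * ρ) ^ s = (((p : ℂ) ^ a) ^ (k + b)) ^ s →
      (L.map (fun e => ι ℂ e.1)).prod ∈ divSpan F ((p : ℂ) ^ a) k ∧
        ∃ N : ℕ, 0 < N ∧ ρ ^ N = (((p : ℂ) ^ a) ^ b) ^ N := by
  intro k
  have hq0 : ((p : ℂ) ^ a) ≠ 0 := by
    have : (p : ℂ) ≠ 0 := by exact_mod_cast (Fact.out : p.Prime).ne_zero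
    exact pow_ne_zero _ this
  induction k with
  | zero =>
    intro s hs L hlen hL hrel
    have hL0 : L = [] := List.length_eq_zero_iff.1 (by omega)
    subst hL0
    refine ⟨Submodule.subset_span ⟨Fin.elim0, fun l => l.elim0, ?_⟩, s, hs, ?_⟩
    · simp
    · simpa using hrel
  | succ k ih =>
    intro s hs L hlen hL hrel
    have h1 := exists_pair_even p a ha π hweil hflip c hc S hS b ρ hρ hρ0 hρc hSρ k s hs
      (L.map Prod.snd) (by rw [List.length_map, hlen]; ring) (by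
        rw [List.map_map]
        exact hrel)
    rw [List.pairwise_map] at h1
    obtain ⟨e, e', L', hperm, hgood⟩ := exists_of_not_pairwise _ L h1
    rw [not_not] at hgood
    have heL : e ∈ L := hperm.mem_iff.2 (by simp)
    have heL' : e' ∈ L := hperm.mem_iff.2 (by simp)
    obtain ⟨b', hb'⟩ := prod_perm (K := ℂ) hperm
    obtain ⟨N, hN, hg⟩ := hgood
    have hih := ih (s * N) (Nat.mul_pos hs hN) L' ?_ (fun e₁ he₁ => hL e₁ (hperm.mem_iff.2
      (List.mem_cons_of_mem _ (List.mem_cons_of_mem _ he₁)))) ?_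
    · refine ⟨?_, hih.2⟩
      rw [hb']
      refine Submodule.smul_mem _ _ ?_
      rw [List.map_cons, List.prod_cons, List.map_cons, List.prod_cons, ← mul_assoc]
      exact mul_mem_divSpan F _ k _
        (isDivisorClass_of_good F _ _ _ _ _ (hL e heL) (hL e' heL') ⟨N, hN, hg⟩) _ hih.1
    · have h2 := hperm.length_eq
      rw [List.length_cons, List.length_cons, hlen] at h2
      omega
    · have h3 : (L.map (fun e => val π S e.2)).prod =
          val π S e.2 * val π S e'.2 * (L'.map (fun e => val π S e.2)).prod := by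
        rw [(hperm.map (fun e => val π S e.2)).prod_eq, List.map_cons, List.prod_cons,
          List.map_cons, List.prod_cons, mul_assoc]
      rw [h3] at hrel
      have h4 := congrArg (fun z => z ^ N) hrel
      beta_reduce at h4
      have h5 : ((val π S e.2 * val π S e'.2 * (L'.map (fun e => val π S e.2)).prod * ρ) ^ s) ^ N =
          ((val π S e.2 * val π S e'.2) ^ N) ^ s *
            ((L'.map (fun e => val π S e.2)).prod * ρ) ^ (s * N) := by
        rw [← pow_mul, ← pow_mul, mul_assoc (val π S e.2 * val π S e'.2), mul_pow,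
          mul_comm N s]
      rw [h5, hg] at h4
      have h6 : ((((p : ℂ) ^ a) ^ (k + 1 + b)) ^ s) ^ N =
          (((p : ℂ) ^ a) ^ N) ^ s * (((p : ℂ) ^ a) ^ (k + b)) ^ (s * N) := by
        generalize (p : ℂ) ^ a = Q
        ring
      rw [h6] at h4
      exact mul_left_cancel₀ (pow_ne_zero _ (pow_ne_zero _ hq0)) h4

/-- **Tate classes on the product.** -/
theorem mem_products [Finite I] (a : ℕ) (ha : 0 < a) (π : ∀ i, K i)
    (hweil : ∀ i, ∀ φ : K i →+* ℂ, ‖φ (π i)‖ ^ 2 = (p : ℝ) ^ a)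
    (hflip : ∀ x y : Σ i, (K i →+* ℂ), y ≠ x → y ≠ bar x → Flipped x y)
    (c : ℝ) (hc : ∀ i, c * finrank ℚ (K i) ≤ spread p a (π i))
    (S : Set ℂ) (hS : ∀ μ ∈ S, ∃ N : ℕ, 0 < N ∧ μ ^ (2 * N) = ((p : ℂ) ^ a) ^ N)
    [FiniteDimensional ℂ V] (F : V →ₗ[ℂ] V)
    (hF : Submodule.span ℂ {v : V | (∃ i, ∃ σ : K i →+* ℂ, F v = σ (π i) • v) ∨
      ∃ μ ∈ S, F v = μ • v} = ⊤)
    {H : Type*} [AddCommGroup H] [Module ℂ H] [FiniteDimensional ℂ H] (G : H →ₗ[ℂ] H) (b : ℕ)
    (hG : ∀ ρ, Module.End.HasEigenvalue G ρ → IsIntegral ℤ ρ ∧ ρ ≠ 0 ∧ Small p a b c ρ ∧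
      (S.Nonempty → Small p a b (c / 2) ρ))
    (k s : ℕ) (hs : 0 < s) (u : (⋀[ℂ]^(2 * k) V) ⊗[ℂ] H)
    (hu : TensorProduct.map (exteriorPower.map (2 * k) F ^ s) (G ^ s) u =
      (((p : ℂ) ^ a) ^ (k + b)) ^ s • u) :
    incl V H (2 * k) u ∈ products F G ((p : ℂ) ^ a) k b := by
  classical
  have hF' : Submodule.span ℂ {v : V | ∃ x, F v = val π S x • v} = ⊤ := by
    rw [← hF]
    congr 1
    ext v
    constructor
    · rintro ⟨x | μ, h⟩
      · exact Or.inl ⟨x.1, x.2, h⟩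
      · exact Or.inr ⟨μ, μ.2, h⟩
    · rintro (⟨i, σ, h⟩ | ⟨μ, hμ, h⟩)
      · exact ⟨Sum.inl ⟨i, σ⟩, h⟩
      · exact ⟨Sum.inr ⟨μ, hμ⟩, h⟩
  obtain ⟨r, b', α, hα, hb'⟩ := exists_eigenbasis_list F (val π S) hF' (2 * k)
  obtain ⟨h, hh, h1⟩ := components_left (exteriorPower.map (2 * k) F ^ s) (G ^ s) b'
    (fun j => α j ^ s) (fun j => pow_apply_eigen _ _ _ (hb' j) s) _ u hu
  rw [hh, map_sum]
  refine Submodule.sum_mem _ fun j _ => ?_
  have h5 : incl V H (2 * k) (b' j ⊗ₜ h j) = (b' j : ExteriorAlgebra ℂ V) ⊗ₜ h j := by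
    rw [incl, TensorProduct.map_tmul]
    rfl
  rw [h5]
  by_cases hj : h j = 0
  · rw [hj, TensorProduct.tmul_zero]
    exact Submodule.zero_mem _
  have hq0 : ((p : ℂ) ^ a) ≠ 0 := by
    have : (p : ℂ) ≠ 0 := by exact_mod_cast (Fact.out : p.Prime).ne_zero
    exact pow_ne_zero _ this
  have hα0 : α j ^ s ≠ 0 := by
    intro h0
    have h2 := h1 j
    rw [h0, zero_smul] at h2
    have h3 : ((((p : ℂ) ^ a) ^ (k + b)) ^ s) • h j = 0 := h2.symm
    rcases smul_eq_zero.1 h3 with h4 | h4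
    · exact pow_ne_zero _ (pow_ne_zero _ hq0) h4
    · exact hj h4
  obtain ⟨c', hc'⟩ : ∃ c', c' = (((p : ℂ) ^ a) ^ (k + b)) ^ s / α j ^ s := ⟨_, rfl⟩
  have h2 : (G ^ s) (h j) = c' • h j := by
    have h3 := congrArg (fun z => (α j ^ s)⁻¹ • z) (h1 j)
    simp only [smul_smul] at h3
    rw [inv_mul_cancel₀ hα0, one_smul] at h3
    rw [h3, hc', div_eq_inv_mul]
  have h3 : Module.End.HasEigenvalue (G ^ s) c' :=
    Module.End.hasEigenvalue_of_hasEigenvector ⟨Module.End.mem_eigenspace_iff.2 h2, hj⟩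
  have h4 : c' ∈ spectrum ℂ (G ^ s) := Module.End.hasEigenvalue_iff_mem_spectrum.1 h3
  rw [spectrum.map_pow_of_pos G hs] at h4
  obtain ⟨ρ, hρ, hρs⟩ := h4
  have hρe : Module.End.HasEigenvalue G ρ := Module.End.hasEigenvalue_iff_mem_spectrum.2 hρ
  obtain ⟨hρint, hρ0, hρc, hSρ⟩ := hG ρ hρe
  have hρs : ρ ^ s = c' := hρs
  have hrel : (α j * ρ) ^ s = (((p : ℂ) ^ a) ^ (k + b)) ^ s := by
    rw [mul_pow, hρs, hc', mul_div_cancel₀ _ hα0]
  -- the first factor is a linear combination of products of divisor classes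
  have hlist := list_mem_divSpan (V := V) p a ha π hweil hflip c hc S hS b ρ hρint hρ0 hρc hSρ F
    k s hs
  refine tmul_mem_products F G _ k b (h j) ?_ _ ?_
  · -- the second factor is a Tate class
    obtain ⟨L, hL, hLα⟩ := hα j
    obtain ⟨_, N, hN, hρN⟩ := hlist (L.map (fun x => ((0 : V), x))) (by rw [List.length_map, hL])
      (by
        intro e he
        rw [List.mem_map] at he
        obtain ⟨x, _, rfl⟩ := he
        rw [map_zero, smul_zero]) (by
        rw [List.map_map]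
        have h6 : ((fun e : V × ((Σ i, (K i →+* ℂ)) ⊕ S) => val π S e.2) ∘
          fun x => ((0 : V), x)) = val π S := rfl
        rw [h6, ← hLα]
        exact hrel)
    refine ⟨s * N, Nat.mul_pos hs hN, ?_⟩
    rw [pow_mul, pow_apply_eigen (G ^ s) (h j) c' h2 N, ← hρs, ← pow_mul, mul_comm s N, pow_mul,
      hρN, ← pow_mul]
  · have h6 : ExteriorAlgebra.map F (b' j : ExteriorAlgebra ℂ V) = α j • (b' j :
        ExteriorAlgebra ℂ V) := by
      rw [← Pool.Agent.W484.BB.coe_map, hb' j]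
      rfl
    refine mem_of_lists_sub F (val π S) hF' (2 * k) 1 (α j) _ ?_ _ (b' j).2 (by
      rw [pow_one]
      exact h6)
    intro L hlen hL hLα
    rw [pow_one] at hLα
    exact (hlist L hlen hL (by rw [hLα]; exact hrel)).1

end Pool.Agent.W484.AS
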