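import Mathlib
import Pool.Agent.W484.AS.Prod
import Pool.Agent.W484.BB.Three3

/-!
# The dispersion of the slopes for varieties of K3 type
-/

set_option autoImplicit false
set_option linter.unusedSectionVars false

namespace Pool.Agent.W484.AS

open NumberField Module Pool.Agent.H925R2 Pool.Agent.H485R3 Pool.Agent.H204R3.CM
  Pool.Agent.H868R3.TwoOdd Pool.Agent.H194R3.CM Pool.Agent.H194R3.Tate
  Pool.Agent.W484.BB Polynomial

variable (p : ℕ) [Fact p.Prime]

/-- The slope of an element of an algebraic closure of the field of `p`-adic numbers, normalized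
such that the slope of `p ^ a` is `1`. -/
noncomputable def slp (a : ℕ) (x : PadicAlgCl p) : ℝ := - Real.logb ((p : ℝ) ^ a) ‖x‖

theorem slp_eq_iff (a b : ℕ) (ha : 0 < a) (x : PadicAlgCl p) (hx : x ≠ 0) :
    slp p a x = b ↔ ‖x‖ = (((p : ℝ) ^ a) ^ b)⁻¹ := by
  have hp1 : (1 : ℝ) < (p : ℝ) ^ a :=
    one_lt_pow₀ (by exact_mod_cast (Fact.out : p.Prime).one_lt) ha.ne'
  have hn : 0 < ‖x‖ := norm_pos_iff.2 hx
  unfold slp
  rw [neg_eq_iff_eq_neg, Real.logb_eq_iff_rpow_eq (by linarith) hp1.ne' hn, Real.rpow_neg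
    (by linarith), Real.rpow_natCast]
  exact eq_comm

theorem slp_div (a b : ℕ) (ha : 0 < a) (x : PadicAlgCl p) (hx : x ≠ 0) :
    slp p a ((((p : ℚ) ^ a : ℚ) : PadicAlgCl p) ^ (2 * b) / x) = 2 * b - slp p a x := by
  have hp1 : (1 : ℝ) < (p : ℝ) ^ a :=
    one_lt_pow₀ (by exact_mod_cast (Fact.out : p.Prime).one_lt) ha.ne'
  have hn : 0 < ‖x‖ := norm_pos_iff.2 hx
  unfold slp
  rw [norm_div, norm_pow, norm_pow_cast, Real.logb_div (by positivity) hn.ne', Real.logb_pow,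
    Real.logb_inv, Real.logb_self_eq_one hp1]
  push_cast
  ring

theorem exists_field (ρ : ℂ) (hρ : IsIntegral ℤ ρ) :
    ∃ (L : IntermediateField ℚ (AlgebraicClosure ℚ)) (_ : NumberField L) (_ : IsGalois ℚ L)
      (j : L →+* ℂ), ∃ r : L, j r = ρ := by
  let K : Empty → Type := fun i => i.elim
  let _ : ∀ i, Field (K i) := fun i => i.elim
  have _ : ∀ i, NumberField (K i) := fun i => i.elim
  have _ : ∀ i, IsCMField (K i) := fun i => i.elim
  obtain ⟨L, h1, h2, j, _, h3⟩ := exists_galois_with (K := K) ρ hρ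
  exact ⟨L, h1, h2, j, h3⟩

/-- **Kronecker.** -/
theorem kronecker (a b : ℕ) (ha : 0 < a) (ρ : ℂ) (hρ : IsIntegral ℤ ρ) (hρ0 : ρ ≠ 0)
    (hn : ∀ z ∈ (minpoly ℚ ρ).aroots ℂ, ‖z‖ = ((p : ℝ) ^ a) ^ b)
    (hs : ∀ x ∈ (minpoly ℚ ρ).aroots (PadicAlgCl p), slp p a x = b) :
    ∃ N : ℕ, 0 < N ∧ ρ ^ N = (((p : ℂ) ^ a) ^ b) ^ N := by
  obtain ⟨L, hL1, hL2, j, r, hr⟩ := exists_field ρ hρ
  have hp0 : (0 : ℝ) < (p : ℝ) ^ a := pow_pos (by exact_mod_cast (Fact.out : p.Prime).pos) _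
  have hq : ((p : ℚ) ^ a : ℚ) ≠ 0 := (pow_pos (by exact_mod_cast (Fact.out : p.Prime).pos) _).ne'
  have hQ : (((p : ℚ) ^ a : ℚ) : L) ≠ 0 := by exact_mod_cast hq
  have hr0 : r ≠ 0 := by
    rintro rfl
    rw [map_zero] at hr
    exact hρ0 hr.symm
  have hrint : IsIntegral ℤ r := isIntegral_of_map j r (by rw [hr]; exact hρ)
  have hmin : minpoly ℚ ρ = minpoly ℚ r := by
    rw [← hr]
    exact minpoly.algHom_eq (RingHom.toRatAlgHom j) j.injective r
  have hm0 : minpoly ℚ r ≠ 0 := minpoly.ne_zero (Algebra.IsIntegral.isIntegral r)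
  have hint : IsIntegral ℤ (r / (((p : ℚ) ^ a : ℚ) : L) ^ b) := by
    refine isIntegral_of_norm_le _ ?_
    intro l _ e
    have h1 : ‖e r‖ ≤ 1 :=
      norm_le_one_of_isIntegral l _ (hrint.map (e.restrictScalars ℤ))
    rw [map_div₀, map_pow, map_ratCast, norm_div, norm_pow]
    by_cases hl : l = p
    · subst hl
      have hex : e r ≠ 0 := (_root_.map_ne_zero _).2 hr0
      have h2 : e r ∈ (minpoly ℚ ρ).aroots (PadicAlgCl l) := by
        rw [hmin, mem_aroots]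
        refine ⟨hm0, ?_⟩
        have h5 := congrArg e (minpoly.aeval ℚ r)
        rw [map_zero] at h5
        rw [← h5]
        exact aeval_algHom_apply e r _
      have h3 := (slp_eq_iff l a b ha _ hex).1 (hs _ h2)
      rw [h3, norm_pow_cast, inv_pow, div_self]
      positivity
    · rw [norm_prime_pow_other p l hl, one_pow, div_one]
      exact h1
  obtain ⟨N, hN, h5⟩ := pow_eq_one_of_norm _ hint (by
    intro φ
    have h2 : φ r ∈ (minpoly ℚ ρ).aroots ℂ := by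
      rw [hmin, mem_aroots]
      refine ⟨hm0, ?_⟩
      have h5 := congrArg φ (minpoly.aeval ℚ r)
      rw [map_zero] at h5
      rw [← h5]
      exact aeval_algHom_apply φ r _
    rw [map_div₀, map_pow, map_ratCast, norm_div, norm_pow, hn _ h2]
    push_cast
    rw [norm_pow, Complex.norm_natCast, div_self]
    positivity)
  refine ⟨N, hN, ?_⟩
  rw [div_pow, div_eq_one_iff_eq (pow_ne_zero _ (pow_ne_zero _ hQ))] at h5
  have h6 := congrArg j h5
  rw [map_pow, hr, map_pow, map_pow, map_ratCast] at h6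
  rw [h6]
  push_cast
  rfl

/-- The roots of a Weil polynomial come in pairs. -/
theorem root_inv (a b : ℕ) (ρ : ℂ) (hρ : IsIntegral ℤ ρ) (hρ0 : ρ ≠ 0)
    (hn : ‖ρ‖ = ((p : ℝ) ^ a) ^ b) (x : PadicAlgCl p)
    (hx : x ∈ (minpoly ℚ ρ).aroots (PadicAlgCl p)) :
    (((p : ℚ) ^ a : ℚ) : PadicAlgCl p) ^ (2 * b) / x ∈ (minpoly ℚ ρ).aroots (PadicAlgCl p) := by
  have hρQ : IsIntegral ℚ ρ := hρ.tower_top
  rw [mem_aroots] at hx ⊢
  refine ⟨hx.1, ?_⟩
  let y : IntermediateField.adjoin ℚ {ρ} := IntermediateField.AdjoinSimple.gen ℚ ρ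
  have hy : algebraMap (IntermediateField.adjoin ℚ {ρ}) ℂ y = ρ :=
    IntermediateField.AdjoinSimple.algebraMap_gen ℚ ρ
  have h1 : aeval ((((p : ℚ) ^ a : ℚ) : IntermediateField.adjoin ℚ {ρ}) ^ (2 * b) / y)
      (minpoly ℚ ρ) = 0 := by
    apply (algebraMap (IntermediateField.adjoin ℚ {ρ}) ℂ).injective
    rw [map_zero, ← aeval_algebraMap_apply, map_div₀, hy, map_pow, map_ratCast]
    have h2 : ((((p : ℚ) ^ a : ℚ)) : ℂ) ^ (2 * b) / ρ = (starRingEnd ℂ) ρ := by
      rw [div_eq_iff hρ0, mul_comm ((starRingEnd ℂ) ρ), Complex.mul_conj,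
        Complex.normSq_eq_norm_sq, hn]
      push_cast
      ring
    rw [h2]
    have h3 := congrArg (Complex.conjAe.toAlgHom.restrictScalars ℚ) (minpoly.aeval ℚ ρ)
    rw [map_zero] at h3
    rw [← h3]
    exact aeval_algHom_apply (Complex.conjAe.toAlgHom.restrictScalars ℚ) ρ _
  let φ := (IntermediateField.algHomAdjoinIntegralEquiv ℚ hρQ (K := PadicAlgCl p)).symm
    ⟨x, mem_aroots.2 hx⟩
  have hφ : φ y = x := IntermediateField.algHomAdjoinIntegralEquiv_symm_apply_gen ℚ hρQ _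
  have h4 := congrArg φ h1
  rw [map_zero, ← aeval_algHom_apply, map_div₀, hφ, map_pow, map_ratCast] at h4
  exact h4

theorem two_le (a b : ℕ) (ha : 0 < a) (ρ : ℂ) (hρ : IsIntegral ℤ ρ) (hρ0 : ρ ≠ 0)
    (hn : ∀ z ∈ (minpoly ℚ ρ).aroots ℂ, ‖z‖ = ((p : ℝ) ^ a) ^ b)
    (hnc : ∀ N : ℕ, 0 < N → ρ ^ N ≠ (((p : ℂ) ^ a) ^ b) ^ N) [DecidablePred fun x : PadicAlgCl p =>
      slp p a x ≠ b] :
    2 ≤ (((minpoly ℚ ρ).aroots (PadicAlgCl p)).filter (fun x => slp p a x ≠ b)).card := by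
  classical
  have hρQ : IsIntegral ℚ ρ := hρ.tower_top
  have hm0 : minpoly ℚ ρ ≠ 0 := minpoly.ne_zero hρQ
  have hnρ : ‖ρ‖ = ((p : ℝ) ^ a) ^ b := hn ρ (by
    rw [mem_aroots]
    exact ⟨hm0, minpoly.aeval ℚ ρ⟩)
  have h1 : ∃ x ∈ (minpoly ℚ ρ).aroots (PadicAlgCl p), slp p a x ≠ b := by
    by_contra h
    push Not at h
    obtain ⟨N, hN, h2⟩ := kronecker p a b ha ρ hρ hρ0 hn h
    exact hnc N hN h2
  obtain ⟨x, hx, hxb⟩ := h1
  have hx0 : x ≠ 0 := by
    rintro rfl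
    rw [mem_aroots] at hx
    have h2 := hx.2
    rw [← coeff_zero_eq_aeval_zero'] at h2
    have h3 : (minpoly ℚ ρ).coeff 0 = 0 := by
      apply (algebraMap ℚ (PadicAlgCl p)).injective
      rw [h2, map_zero]
    exact hρ0 ((minpoly.coeff_zero_eq_zero hρQ).1 h3)
  have hx' := root_inv p a b ρ hρ hρ0 hnρ x hx
  have hs := slp_div p a b ha x hx0
  have hxb' : slp p a ((((p : ℚ) ^ a : ℚ) : PadicAlgCl p) ^ (2 * b) / x) ≠ b := by
    rw [hs]
    intro h
    apply hxb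
    linarith
  have hne : (((p : ℚ) ^ a : ℚ) : PadicAlgCl p) ^ (2 * b) / x ≠ x := by
    intro h
    rw [h] at hs
    apply hxb
    linarith
  refine le_trans ?_ (Multiset.toFinset_card_le _)
  rw [← Finset.card_pair hne]
  refine Finset.card_le_card ?_
  intro z hz
  rw [Finset.mem_insert, Finset.mem_singleton] at hz
  rw [Multiset.mem_toFinset, Multiset.mem_filter]
  rcases hz with rfl | rfl
  · exact ⟨hx', hxb'⟩
  · exact ⟨hx, hxb⟩

/-- `f` has all its complex roots of absolute value `q ^ b`. -/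
def IsWeil (a b : ℕ) (f : ℤ[X]) : Prop :=
  f.Monic ∧ ∀ z ∈ (f.map (Int.castRingHom ℂ)).roots, ‖z‖ = ((p : ℝ) ^ a) ^ b

theorem dispersion_eq (a b : ℕ) (ρ : ℂ) : dispersion p a b ρ =
    (((minpoly ℚ ρ).aroots (PadicAlgCl p)).map (fun x => (slp p a x - b) ^ 2)).sum := rfl

theorem aroots_le {S : Type*} [Field S] [Algebra ℚ S] {f : ℤ[X]} (hf : f.Monic) {m : ℚ[X]}
    (hm : m ∣ f.map (Int.castRingHom ℚ)) : m.aroots S ≤ (f.map (Int.castRingHom S)).roots := by
  have h1 : (f.map (Int.castRingHom ℚ)).map (algebraMap ℚ S) = f.map (Int.castRingHom S) := by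
    rw [Polynomial.map_map]
    congr 1
    exact RingHom.ext_int _ _
  have h2 := Polynomial.map_dvd (algebraMap ℚ S) hm
  rw [h1] at h2
  exact roots.le_of_dvd (hf.map _).ne_zero h2

section weil

variable {p} {a b : ℕ} {f : ℤ[X]} (hf : IsWeil p a b f)

theorem mem_roots_int {f : ℤ[X]} {z : ℂ} (hz : z ∈ (f.map (Int.castRingHom ℂ)).roots) :
    f.eval₂ (Int.castRingHom ℂ) z = 0 := by
  have h := isRoot_of_mem_roots hz
  rwa [IsRoot.def, eval_map] at h

theorem minpoly_dvd' {f : ℤ[X]} {z : ℂ} (hz : z ∈ (f.map (Int.castRingHom ℂ)).roots) :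
    minpoly ℚ z ∣ f.map (Int.castRingHom ℚ) := by
  apply minpoly.dvd
  have h := mem_roots_int hz
  rw [aeval_def, eval₂_map, RingHom.ext_int ((algebraMap ℚ ℂ).comp (Int.castRingHom ℚ))
    (Int.castRingHom ℂ)]
  exact h

theorem integral_root (hf : f.Monic) {z : ℂ} (hz : z ∈ (f.map (Int.castRingHom ℂ)).roots) :
    IsIntegral ℤ z := by
  refine ⟨f, hf, ?_⟩
  have h := mem_roots_int hz
  rwa [RingHom.ext_int (Int.castRingHom ℂ) (algebraMap ℤ ℂ)] at h

include hf in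
theorem ne_zero_root {z : ℂ} (hz : z ∈ (f.map (Int.castRingHom ℂ)).roots) : z ≠ 0 := by
  rintro rfl
  have h := hf.2 _ hz
  rw [norm_zero] at h
  have h1 : (0 : ℝ) < ((p : ℝ) ^ a) ^ b :=
    pow_pos (pow_pos (by exact_mod_cast (Fact.out : p.Prime).pos) _) _
  exact h1.ne h

include hf in
theorem norm_root {z : ℂ} (hz : z ∈ (f.map (Int.castRingHom ℂ)).roots) (w : ℂ)
    (hw : w ∈ (minpoly ℚ z).aroots ℂ) : ‖w‖ = ((p : ℝ) ^ a) ^ b :=
  hf.2 _ (Multiset.mem_of_le (aroots_le hf.1 (minpoly_dvd' hz)) hw)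

/-- All slopes are close to `b`. -/
theorem small_of_height (hfm : f.Monic) {z : ℂ} (hz : z ∈ (f.map (Int.castRingHom ℂ)).roots)
    (c : ℝ) (h : ℕ) (hh : 2 < c * (h : ℝ) ^ 2)
    (hs : ∀ x ∈ (f.map (Int.castRingHom (PadicAlgCl p))).roots, |slp p a x - b| * h ≤ 1) :
    Small p a b c z := by
  have hzint : IsIntegral ℤ z := integral_root hfm hz
  have hdeg : (0 : ℝ) < (minpoly ℚ z).natDegree := by
    exact_mod_cast minpoly.natDegree_pos hzint.tower_top
  have h1 : (minpoly ℚ z).aroots (PadicAlgCl p) ≤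
      (f.map (Int.castRingHom (PadicAlgCl p))).roots := aroots_le hfm (minpoly_dvd' hz)
  have hh0 : (0 : ℝ) < (h : ℝ) ^ 2 := by
    rcases Nat.eq_zero_or_pos h with rfl | h0
    · norm_num at hh
    · positivity
  have h2 : dispersion p a b z * (h : ℝ) ^ 2 ≤ (minpoly ℚ z).natDegree := by
    rw [dispersion_eq, ← Multiset.sum_map_mul_right]
    calc _ ≤ (((minpoly ℚ z).aroots (PadicAlgCl p)).map (fun _ => (1 : ℝ))).sum := by
          refine Multiset.sum_map_le_sum_map _ _ fun x hx => ?_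
          have h3 := hs x (Multiset.mem_of_le h1 hx)
          have h4 : (|slp p a x - b| * h) ^ 2 ≤ 1 :=
            pow_le_one₀ (by positivity) h3
          rwa [mul_pow, sq_abs] at h4
      _ = (((minpoly ℚ z).aroots (PadicAlgCl p)).card : ℝ) := by simp
      _ ≤ _ := by
          have h5 := card_roots' ((minpoly ℚ z).map (algebraMap ℚ (PadicAlgCl p)))
          rw [natDegree_map] at h5
          exact_mod_cast h5
  have h3 : 2 * (dispersion p a b z * (h : ℝ) ^ 2) < c * (minpoly ℚ z).natDegree * (h : ℝ) ^ 2 := by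
    calc _ ≤ 2 * ((minpoly ℚ z).natDegree : ℝ) := by linarith
      _ < c * (h : ℝ) ^ 2 * (minpoly ℚ z).natDegree := mul_lt_mul_of_pos_right hh hdeg
      _ = _ := by ring
  unfold Small
  rw [← mul_assoc] at h3
  exact lt_of_mul_lt_mul_right h3 hh0.le

theorem disp_le (s t : Multiset (PadicAlgCl p))
    [DecidablePred fun x : PadicAlgCl p => slp p a x ≠ b]
    (hs : ∀ x ∈ t, |slp p a x - b| ≤ 1) (hst : s ≤ t) :
    (s.map (fun x => (slp p a x - b) ^ 2)).sum ≤ (s.filter (fun x => slp p a x ≠ b)).card := by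
  induction s using Multiset.induction_on with
  | empty => simp
  | cons x s ih =>
    have h4 := ih ((Multiset.le_cons_self s x).trans hst)
    have h5 := hs x (Multiset.mem_of_le hst (Multiset.mem_cons_self x s))
    rw [Multiset.map_cons, Multiset.sum_cons]
    by_cases h6 : slp p a x = b
    · have h7 : ¬ (fun x : PadicAlgCl p => slp p a x ≠ b) x := fun h => h h6
      have h8 : Multiset.filter (fun x => slp p a x ≠ b) (x ::ₘ s) =
          Multiset.filter (fun x => slp p a x ≠ b) s := Multiset.filter_cons_of_neg s h7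
      rw [h8, h6, sub_self]
      linarith
    · have h7 : (fun x : PadicAlgCl p => slp p a x ≠ b) x := h6
      have h8 : Multiset.filter (fun x => slp p a x ≠ b) (x ::ₘ s) =
          x ::ₘ Multiset.filter (fun x => slp p a x ≠ b) s := Multiset.filter_cons_of_pos s h7
      rw [h8, Multiset.card_cons]
      have h7 : (slp p a x - b) ^ 2 ≤ 1 := by
        rw [← sq_abs]
        exact pow_le_one₀ (abs_nonneg _) h5
      push_cast
      linarith

theorem disp_zero (ha : 0 < a) (z : ℂ) (N : ℕ) (hN : 0 < N)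
    (h3 : z ^ N = (((p : ℂ) ^ a) ^ b) ^ N) : dispersion p a b z = 0 := by
  rw [dispersion_eq]
  apply Multiset.sum_eq_zero
  intro y hy
  rw [Multiset.mem_map] at hy
  obtain ⟨x, hx, rfl⟩ := hy
  have hdvd : minpoly ℚ z ∣ (X ^ N - C ((((p : ℚ) ^ a) ^ b) ^ N) : ℚ[X]) := by
    apply minpoly.dvd
    rw [map_sub, map_pow, aeval_X, aeval_C, h3]
    push_cast
    simp
  rw [mem_aroots] at hx
  have h5 := aeval_eq_zero_of_dvd_aeval_eq_zero hdvd hx.2
  rw [map_sub, map_pow, aeval_X, aeval_C, sub_eq_zero] at h5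
  have h6 := congrArg norm h5
  rw [norm_pow] at h6
  have h7 : ‖algebraMap ℚ (PadicAlgCl p) ((((p : ℚ) ^ a) ^ b) ^ N)‖ =
      ((((p : ℝ) ^ a) ^ b)⁻¹) ^ N := by
    have h8 : algebraMap ℚ (PadicAlgCl p) ((((p : ℚ) ^ a) ^ b) ^ N) =
        (((((p : ℚ) ^ a : ℚ)) : PadicAlgCl p) ^ b) ^ N := by
      rw [map_pow, map_pow]
      rfl
    rw [h8, norm_pow, norm_pow, norm_pow_cast, inv_pow]
  rw [h7] at h6
  have h9 : ‖x‖ = (((p : ℝ) ^ a) ^ b)⁻¹ :=
    (pow_left_inj₀ (norm_nonneg _) (by positivity) hN.ne').1 h6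
  have hx0 : x ≠ 0 := by
    rintro rfl
    rw [norm_zero] at h9
    have h10 : (0 : ℝ) < (((p : ℝ) ^ a) ^ b)⁻¹ :=
      inv_pos.2 (pow_pos (pow_pos (by exact_mod_cast (Fact.out : p.Prime).pos) _) _)
    exact h10.ne h9
  rw [(slp_eq_iff p a b ha x hx0).2 h9, sub_self]
  norm_num

end weil

end Pool.Agent.W484.AS
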