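import Mathlib
import Pool.Agent.W484.AS.KThree

/-!
# The dispersion of the slopes for ordinary varieties of K3 type
-/

set_option autoImplicit false
set_option linter.unusedSectionVars false

namespace Pool.Agent.W484.AS

open NumberField Module Pool.Agent.H925R2 Pool.Agent.H485R3 Pool.Agent.H204R3.CM
  Pool.Agent.H868R3.TwoOdd Pool.Agent.H194R3.CM Pool.Agent.H194R3.Tate
  Pool.Agent.W484.BB Polynomial

variable (p : ℕ) [Fact p.Prime]

/-- `z` is not of the form `q ^ b ζ`, `ζ` a root of unity. -/
def Transcendental (a b : ℕ) (z : ℂ) : Prop :=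
  ∀ N : ℕ, 0 < N → z ^ N ≠ (((p : ℂ) ^ a) ^ b) ^ N

variable {p} {a b : ℕ} {f : ℤ[X]} (hf : IsWeil p a b f)

include hf in
theorem not_mul_dvd (ha : 0 < a) [DecidablePred fun x : PadicAlgCl p => slp p a x ≠ b]
    (h2 : (((f.map (Int.castRingHom (PadicAlgCl p))).roots).filter
      (fun x => slp p a x ≠ b)).card ≤ 2)
    {w w' : ℂ} (hw : w ∈ (f.map (Int.castRingHom ℂ)).roots) (hw1 : Transcendental p a b w)
    (hw' : w' ∈ (f.map (Int.castRingHom ℂ)).roots) (hw1' : Transcendental p a b w') :
    ¬ minpoly ℚ w * minpoly ℚ w' ∣ f.map (Int.castRingHom ℚ) := by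
  intro hdvd
  have h3 : (minpoly ℚ w * minpoly ℚ w').aroots (PadicAlgCl p) ≤
    (f.map (Int.castRingHom (PadicAlgCl p))).roots := aroots_le hf.1 hdvd
  have h4 : (minpoly ℚ w * minpoly ℚ w') ≠ 0 :=
    mul_ne_zero (minpoly.ne_zero (integral_root hf.1 hw).tower_top)
      (minpoly.ne_zero (integral_root hf.1 hw').tower_top)
  rw [aroots_mul h4] at h3
  have h5 := Multiset.card_le_card (Multiset.filter_le_filter (fun x => slp p a x ≠ b) h3)
  rw [Multiset.filter_add, Multiset.card_add] at h5
  have h6 := two_le p a b ha w (integral_root hf.1 hw) (ne_zero_root hf hw) (norm_root hf hw) hw1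
  have h7 := two_le p a b ha w' (integral_root hf.1 hw') (ne_zero_root hf hw')
    (norm_root hf hw') hw1'
  omega

include hf in
theorem minpoly_unique (ha : 0 < a) [DecidablePred fun x : PadicAlgCl p => slp p a x ≠ b]
    (h2 : (((f.map (Int.castRingHom (PadicAlgCl p))).roots).filter
      (fun x => slp p a x ≠ b)).card ≤ 2)
    {w z : ℂ} (hw : w ∈ (f.map (Int.castRingHom ℂ)).roots) (hw1 : Transcendental p a b w)
    (hz : z ∈ (f.map (Int.castRingHom ℂ)).roots) (hz1 : Transcendental p a b z) :
    minpoly ℚ w = minpoly ℚ z := by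
  have hwQ : IsIntegral ℚ w := (integral_root hf.1 hw).tower_top
  have hzQ : IsIntegral ℚ z := (integral_root hf.1 hz).tower_top
  by_contra h3
  apply not_mul_dvd hf ha h2 hw hw1 hz hz1
  refine IsCoprime.mul_dvd ?_ (minpoly_dvd' hw) (minpoly_dvd' hz)
  rcases EuclideanDomain.dvd_or_coprime (minpoly ℚ w) (minpoly ℚ z)
    (minpoly.irreducible hwQ) with h4 | h4
  swap
  · exact h4
  · exfalso
    apply h3
    exact eq_of_monic_of_associated (minpoly.monic hwQ) (minpoly.monic hzQ)
      ((minpoly.irreducible hwQ).associated_of_dvd (minpoly.irreducible hzQ) h4)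

include hf in
theorem count_le_one [DecidableEq ℂ] (ha : 0 < a)
    [DecidablePred fun x : PadicAlgCl p => slp p a x ≠ b]
    (h2 : (((f.map (Int.castRingHom (PadicAlgCl p))).roots).filter
      (fun x => slp p a x ≠ b)).card ≤ 2)
    {w : ℂ} (hw : w ∈ (f.map (Int.castRingHom ℂ)).roots) (hw1 : Transcendental p a b w) :
    (f.map (Int.castRingHom ℂ)).roots.count w ≤ 1 := by
  have hwQ : IsIntegral ℚ w := (integral_root hf.1 hw).tower_top
  by_contra h3
  push Not at h3
  apply not_mul_dvd hf ha h2 hw hw1 hw hw1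
  obtain ⟨g, hg⟩ := minpoly_dvd' hw
  have hne : f.map (Int.castRingHom ℚ) ≠ 0 := (hf.1.map _).ne_zero
  have h4 : minpoly ℚ w * g ≠ 0 := by rw [← hg]; exact hne
  have h5 : (f.map (Int.castRingHom ℂ)).roots = (minpoly ℚ w).aroots ℂ + g.aroots ℂ := by
    rw [← aroots_mul h4, ← hg, aroots_def, Polynomial.map_map]
    congr 2
  rw [h5, Multiset.count_add] at h3
  have h6 : ((minpoly ℚ w).aroots ℂ).count w ≤ 1 := by
    apply Multiset.nodup_iff_count_le_one.1
    exact nodup_aroots_iff_of_splits (minpoly.ne_zero hwQ)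
      (IsAlgClosed.splits _) |>.2 (minpoly.irreducible hwQ).separable
  have h7 : 0 < (g.aroots ℂ).count w := by omega
  rw [Multiset.count_pos, mem_aroots] at h7
  have h8 : minpoly ℚ w ∣ g := minpoly.dvd _ _ h7.2
  rw [hg]
  exact mul_dvd_mul_left _ h8

include hf in
/-- Two slopes are different from `b`: the other roots form one orbit. -/
theorem small_of_two (ha : 0 < a) {z : ℂ} (hz : z ∈ (f.map (Int.castRingHom ℂ)).roots) (c : ℝ)
    [DecidablePred fun x : PadicAlgCl p => slp p a x ≠ b]
    [DecidablePred (Transcendental p a b)]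
    (hs : ∀ x ∈ (f.map (Int.castRingHom (PadicAlgCl p))).roots, |slp p a x - b| ≤ 1)
    (h2 : (((f.map (Int.castRingHom (PadicAlgCl p))).roots).filter
      (fun x => slp p a x ≠ b)).card ≤ 2)
    (hr : 4 < c * ((f.map (Int.castRingHom ℂ)).roots.filter (Transcendental p a b)).card) :
    Small p a b c z := by
  classical
  have hzQ : IsIntegral ℚ z := (integral_root hf.1 hz).tower_top
  have hdeg : (0 : ℝ) < (minpoly ℚ z).natDegree := by
    exact_mod_cast minpoly.natDegree_pos hzQ
  have hc0 : 0 < c := by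
    by_contra hc
    have h3 : c * (((f.map (Int.castRingHom ℂ)).roots.filter
      (Transcendental p a b)).card : ℝ) ≤ 0 :=
      mul_nonpos_of_nonpos_of_nonneg (not_lt.1 hc) (Nat.cast_nonneg _)
    linarith
  have hle : (minpoly ℚ z).aroots (PadicAlgCl p) ≤
    (f.map (Int.castRingHom (PadicAlgCl p))).roots := aroots_le hf.1 (minpoly_dvd' hz)
  by_cases hz' : Transcendental p a b z
  · -- the dispersion is at most two
    have hdisp : dispersion p a b z ≤ 2 := by
      have h4 := disp_le (a := a) (b := b) _ _ hs hle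
      have h5 := Multiset.card_le_card (Multiset.filter_le_filter (fun x => slp p a x ≠ b) hle)
      have h6 : ((((minpoly ℚ z).aroots (PadicAlgCl p)).filter
          (fun x => slp p a x ≠ b)).card : ℝ) ≤ 2 := by exact_mod_cast h5.trans h2
      exact h4.trans h6
    have h3 : (f.map (Int.castRingHom ℂ)).roots.filter (Transcendental p a b) ≤
        (minpoly ℚ z).aroots ℂ := by
      have hnd : ((f.map (Int.castRingHom ℂ)).roots.filter (Transcendental p a b)).Nodup := by
        rw [Multiset.nodup_iff_count_le_one]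
        intro w
        by_cases hw : w ∈ (f.map (Int.castRingHom ℂ)).roots.filter (Transcendental p a b)
        · rw [Multiset.mem_filter] at hw
          exact (Multiset.count_le_of_le w (Multiset.filter_le _ _)).trans
            (count_le_one hf ha h2 hw.1 hw.2)
        · rw [Multiset.count_eq_zero_of_notMem hw]
          norm_num
      rw [Multiset.le_iff_subset hnd]
      intro w hw
      rw [Multiset.mem_filter] at hw
      rw [← minpoly_unique hf ha h2 hw.1 hw.2 hz hz', mem_aroots]
      exact ⟨minpoly.ne_zero (integral_root hf.1 hw.1).tower_top, minpoly.aeval ℚ w⟩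
    have h4 := Multiset.card_le_card h3
    have h5 := card_roots' ((minpoly ℚ z).map (algebraMap ℚ ℂ))
    rw [natDegree_map] at h5
    have h6 : (((f.map (Int.castRingHom ℂ)).roots.filter (Transcendental p a b)).card : ℝ) ≤
        (minpoly ℚ z).natDegree := by exact_mod_cast h4.trans h5
    unfold Small
    calc 2 * dispersion p a b z ≤ 4 := by linarith
      _ < _ := hr
      _ ≤ _ := mul_le_mul_of_nonneg_left h6 hc0.le
  · -- all slopes are equal to `b`
    unfold Transcendental at hz'
    push Not at hz'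
    obtain ⟨N, hN, h3⟩ := hz'
    unfold Small
    rw [disp_zero ha z N hN h3, mul_zero]
    exact mul_pos hc0 hdeg

end Pool.Agent.W484.AS
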