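import Mathlib
import Pool.Agent.W484.AS.KThree2

/-!
# Open subvarieties of products
-/

set_option autoImplicit false
set_option linter.unusedSectionVars false

namespace Pool.Agent.W484.AS

open NumberField Module Pool.Agent.H925R2 Pool.Agent.H485R3 Pool.Agent.H204R3.CM
  Pool.Agent.H868R3.TwoOdd Pool.Agent.H194R3.CM Pool.Agent.H194R3.Tate
  ExteriorAlgebra Pool.Agent.H194R3.Weil Pool.Agent.W484.BB TensorProduct

/-- The eigenvectors span a space with a basis of eigenvectors. -/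
theorem span_eigen_of_basis {U : Type*} [AddCommGroup U] [Module ℂ U] {r : ℕ} (T : U →ₗ[ℂ] U)
    (b : Basis (Fin r) ℂ U) (α : Fin r → ℂ) (hb : ∀ j, T (b j) = α j • b j) :
    Submodule.span ℂ {u : U | ∃ μ : ℂ, T u = μ • u} = ⊤ := by
  rw [eq_top_iff, ← b.span_eq]
  refine Submodule.span_mono ?_
  rintro _ ⟨j, rfl⟩
  exact ⟨α j, hb j⟩

theorem span_eigen_tensor {U W : Type*} [AddCommGroup U] [Module ℂ U] [AddCommGroup W]
    [Module ℂ W] (T : U →ₗ[ℂ] U) (G : W →ₗ[ℂ] W)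
    (hT : Submodule.span ℂ {u : U | ∃ μ : ℂ, T u = μ • u} = ⊤)
    (hG : Submodule.span ℂ {u : W | ∃ μ : ℂ, G u = μ • u} = ⊤) :
    Submodule.span ℂ {u : U ⊗[ℂ] W | ∃ μ : ℂ, TensorProduct.map T G u = μ • u} = ⊤ := by
  rw [eq_top_iff]
  intro t _
  induction t with
  | zero => exact Submodule.zero_mem _
  | add x y hx hy => exact Submodule.add_mem _ (hx trivial) (hy trivial)
  | tmul u w =>
    have hu : u ∈ Submodule.span ℂ {u : U | ∃ μ : ℂ, T u = μ • u} := by rw [hT]; trivial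
    have hw : w ∈ Submodule.span ℂ {u : W | ∃ μ : ℂ, G u = μ • u} := by rw [hG]; trivial
    have h1 : u ⊗ₜ[ℂ] w ∈ Submodule.map₂ (TensorProduct.mk ℂ U W)
        (Submodule.span ℂ {u : U | ∃ μ : ℂ, T u = μ • u})
        (Submodule.span ℂ {u : W | ∃ μ : ℂ, G u = μ • u}) := Submodule.apply_mem_map₂ _ hu hw
    rw [Submodule.map₂_span_span] at h1
    refine Submodule.span_mono ?_ h1
    rintro _ ⟨x, ⟨μ, hx⟩, y, ⟨ν, hy⟩, rfl⟩
    refine ⟨μ * ν, ?_⟩
    change TensorProduct.map T G (x ⊗ₜ y) = (μ * ν) • (x ⊗ₜ y)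
    rw [TensorProduct.map_tmul, hx, hy, TensorProduct.smul_tmul_smul]

/-- Lifting of eigenvectors to a sum. -/
theorem open_core {B : Type*} (X : B → Type*) [∀ b, AddCommMonoid (X b)] [∀ b, Module ℂ (X b)]
    (T : ∀ b, X b →ₗ[ℂ] X b)
    (hT : ∀ b, Submodule.span ℂ {u : X b | ∃ μ : ℂ, T b u = μ • u} = ⊤)
    {M : Type*} [AddCommGroup M] [Module ℂ M] (Φ : M →ₗ[ℂ] M) (R : ∀ b, X b →ₗ[ℂ] M)
    (hR : ∀ b u, R b (T b u) = Φ (R b u)) (c : ℂ) (A : ∀ b, Submodule ℂ (X b))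
    (hA : ∀ b u, T b u = c • u → u ∈ A b) (y : M)
    (hy : Φ y = c • y) (hyR : y ∈ ⨆ b, LinearMap.range (R b)) : y ∈ ⨆ b, (A b).map (R b) := by
  obtain ⟨E, hE⟩ : ∃ E : Set M, E = {t | ∃ b, ∃ u : X b, (∃ μ : ℂ, T b u = μ • u) ∧ R b u = t} :=
    ⟨_, rfl⟩
  have h1 : ⨆ b, LinearMap.range (R b) ≤ Submodule.span ℂ E := by
    refine iSup_le fun b => ?_
    rw [← Submodule.map_top, ← hT b, Submodule.map_span]
    refine Submodule.span_mono ?_
    rintro _ ⟨u, hu, rfl⟩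
    rw [hE]
    exact ⟨b, u, hu, rfl⟩
  have h2 := mem_span_eigen Φ E (by
    intro t ht
    rw [hE] at ht
    obtain ⟨b, u, ⟨μ, hu⟩, rfl⟩ := ht
    exact ⟨μ, by rw [← hR, hu, map_smul]⟩) c y (h1 hyR) hy
  have h3 : Submodule.span ℂ {t ∈ E | Φ t = c • t} ≤ ⨆ b, (A b).map (R b) := by
    refine Submodule.span_le.2 ?_
    rintro t ⟨ht1, ht⟩
    rw [hE] at ht1
    obtain ⟨b, u, ⟨μ, hu⟩, rfl⟩ := ht1
    by_cases h0 : R b u = 0
    · rw [h0]
      exact Submodule.zero_mem _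
    · rw [← hR, hu, map_smul] at ht
      have h4 : μ = c := smul_left_injective ℂ h0 ht
      have h5 : u ∈ A b := hA b u (by rw [hu, h4])
      exact Submodule.mem_iSup_of_mem b ⟨u, h5, rfl⟩
  exact h3 h2

end Pool.Agent.W484.AS
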