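import Mathlib
import Pool.Agent.W484.AS.Open

/-!
# Tate classes on products and on their open subvarieties
-/

set_option autoImplicit false
set_option linter.unusedSectionVars false

namespace Pool.Agent.W484.AS

open NumberField Module Pool.Agent.H925R2 Pool.Agent.H485R3 Pool.Agent.H204R3.CM
  Pool.Agent.H868R3.TwoOdd Pool.Agent.H194R3.CM Pool.Agent.H194R3.Tate
  ExteriorAlgebra Pool.Agent.H194R3.Weil Pool.Agent.W484.BB TensorProduct

open Classical in
/-- The slopes of the polynomial `f` (the characteristic polynomial of the Frobenius of a variety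
over the field with `q = p ^ a` elements in degree `2 b`; all slopes are in the mean `b`) are
moderate, with respect to the real number `c`. One of the following holds:

* for every complex root `z` of `f`, the mean of `(slope - b) ^ 2` over the conjugates of `z` is
  smaller than `c / 2`;
* there is a natural number `h` such that `2 < c h ^ 2` and all slopes differ from `b` by at most
  `1 / h`;
* all slopes differ from `b` by at most `1`, at most two roots have a slope different from `b`, and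
  more than `4 / c` roots are not of the form `q ^ b ζ`, `ζ` a root of unity (roots are counted
  with multiplicity). -/
def Moderate (p : ℕ) [Fact p.Prime] (a b : ℕ) (c : ℝ) (f : Polynomial ℤ) : Prop :=
  (∀ z ∈ (f.map (Int.castRingHom ℂ)).roots, Small p a b c z) ∨
  (∃ h : ℕ, 2 < c * (h : ℝ) ^ 2 ∧
    ∀ x ∈ (f.map (Int.castRingHom (PadicAlgCl p))).roots, |slp p a x - b| * h ≤ 1) ∨
  ((∀ x ∈ (f.map (Int.castRingHom (PadicAlgCl p))).roots, |slp p a x - b| ≤ 1) ∧
    ((f.map (Int.castRingHom (PadicAlgCl p))).roots.filter (fun x => slp p a x ≠ b)).card ≤ 2 ∧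
    4 < c * ((f.map (Int.castRingHom ℂ)).roots.filter
      (fun z => ∀ N : ℕ, 0 < N → z ^ N ≠ (((p : ℂ) ^ a) ^ b) ^ N)).card)

theorem small_of_moderate {p : ℕ} [Fact p.Prime] {a b : ℕ} (ha : 0 < a) {c : ℝ}
    {f : Polynomial ℤ} (hf : IsWeil p a b f) (h : Moderate p a b c f) (z : ℂ)
    (hz : z ∈ (f.map (Int.castRingHom ℂ)).roots) : Small p a b c z := by
  classical
  rcases h with h | ⟨h, hh, hs⟩ | ⟨h1, h2, h3⟩
  · exact h z hz
  · exact small_of_height hf.1 hz c h hh hs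
  · refine small_of_two hf ha hz c h1 ?_ ?_
    · convert h2
    · convert h3
      rfl

section comp

variable {V : Type} [AddCommGroup V] [Module ℂ V]
  {H : Type} [AddCommGroup H] [Module ℂ H]

/-- The classes in `H ^ (2 k) (A) ⊗ H ^ (2 b) (Y)` which are linear combinations of products of `k`
divisor classes on `A` and a Tate class on `Y` (over extensions of the base field). -/
noncomputable def algebraic (F : V →ₗ[ℂ] V) (G : H →ₗ[ℂ] H) (q : ℂ) (k b : ℕ) :
    Submodule ℂ ((⋀[ℂ]^(2 * k) V) ⊗[ℂ] H) :=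
  (products F G q k b).comap (incl V H (2 * k))

/-- The classes in `H ^ (2 k) (A) ⊗ H ^ (2 b) (Y)` on which the Frobenius acts as
multiplication by `q ^ i` (`i = k + b`) and which are linear combinations of products of `k`
divisor classes on `A` and a Tate class on `Y` (over extensions of the base field). -/
noncomputable def algebraicTate (F : V →ₗ[ℂ] V) (G : H →ₗ[ℂ] H) (q : ℂ) (i k b : ℕ) :
    Submodule ℂ ((⋀[ℂ]^(2 * k) V) ⊗[ℂ] H) :=
  algebraic F G q k b ⊓
    LinearMap.eqLocus (TensorProduct.map (exteriorPower.map (2 * k) F) G) (q ^ i • LinearMap.id)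

end comp

section open'

variable {V : Type} [AddCommGroup V] [Module ℂ V]
  {H : ℕ → Type} [∀ b, AddCommGroup (H b)] [∀ b, Module ℂ (H b)]

/-- Every class in `H ^ (2 k) (A) ⊗ H ^ (2 b) (Y)` (for all `k`, `b`) on which the `s`-th power of the
Frobenius, `s > 0`, acts as multiplication by `(q ^ (k + b)) ^ s`, is a linear combination of
products of `k` divisor classes on `A` and a Tate class on `Y`. -/
def ProductTate (F : V →ₗ[ℂ] V) (G : ∀ b, H b →ₗ[ℂ] H b) (q : ℂ) : Prop :=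
  ∀ k b s : ℕ, 0 < s → ∀ u : (⋀[ℂ]^(2 * k) V) ⊗[ℂ] H b,
    TensorProduct.map (exteriorPower.map (2 * k) F ^ s) (G b ^ s) u = (q ^ (k + b)) ^ s • u →
      u ∈ algebraic F (G b) q k b

/-- Let `R b : H ^ (2 i - 2 b) (A) ⊗ H ^ (2 b) (Y) → M`, `0 ≤ b ≤ i`, be equivariant maps, `Φ` the
Frobenius of `M`. If the eigenvalues of the Frobenius of the quotient of `M` by the sum of the
ranges have absolute values larger than `|q ^ i|`, then every `y` in `M` with `Φ y = q ^ i • y` is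
a sum of images of elements of the spaces `algebraicTate`. -/
def OpenTate (F : V →ₗ[ℂ] V) (G : ∀ b, H b →ₗ[ℂ] H b) (q : ℂ) : Prop :=
  ∀ (i : ℕ) (M : Type) [AddCommGroup M] [Module ℂ M] (Φ : M →ₗ[ℂ] M)
    (R : ∀ b : Fin (i + 1), (⋀[ℂ]^(2 * (i - b)) V) ⊗[ℂ] H b →ₗ[ℂ] M),
    (∀ b u, R b (TensorProduct.map (exteriorPower.map (2 * (i - b)) F) (G b) u) = Φ (R b u)) →
    (∀ (μ : ℂ) (y : M), ‖μ‖ ≤ ‖q‖ ^ i → Φ y - μ • y ∈ ⨆ b, LinearMap.range (R b) →
      y ∈ ⨆ b, LinearMap.range (R b)) →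
    ∀ y : M, Φ y = q ^ i • y →
      y ∈ ⨆ b : Fin (i + 1), (algebraicTate F (G b) q i (i - b) b).map (R b)

theorem open_part (F : V →ₗ[ℂ] V) (G : ∀ b, H b →ₗ[ℂ] H b) (q : ℂ)
    (hV : ∀ n, Submodule.span ℂ {u : ⋀[ℂ]^n V | ∃ μ : ℂ, exteriorPower.map n F u = μ • u} = ⊤)
    (hss : ∀ b, Submodule.span ℂ {w : H b | ∃ μ : ℂ, G b w = μ • w} = ⊤)
    (key : ProductTate F G q) : OpenTate F G q := by
  intro i M _ _ Φ R hR hw y hy
  have hyR : y ∈ ⨆ b, LinearMap.range (R b) := by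
    refine hw (q ^ i) y ?_ ?_
    · rw [norm_pow]
    · rw [hy, sub_self]
      exact Submodule.zero_mem _
  refine open_core (fun b : Fin (i + 1) => (⋀[ℂ]^(2 * (i - b)) V) ⊗[ℂ] H b)
    (fun b => TensorProduct.map (exteriorPower.map (2 * (i - b)) F) (G b))
    (fun b => span_eigen_tensor (exteriorPower.map (2 * (i - b)) F) (G b) (hV _) (hss b))
    Φ R hR _ (fun b => algebraicTate F (G b) q i (i - b) b) ?_ y hy hyR
  intro b u hu
  refine ⟨key (i - b) b 1 one_pos u ?_, hu⟩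
  have h2 : i - (b : ℕ) + (b : ℕ) = i := Nat.sub_add_cancel (Nat.lt_succ_iff.1 b.2)
  rw [pow_one, pow_one, pow_one, h2]
  exact hu

end open'

variable {I : Type} (p : ℕ) [Fact p.Prime] {K : I → Type} [∀ i, Field (K i)]
  [∀ i, NumberField (K i)] [∀ i, IsCMField (K i)]

theorem span_val (S : Set ℂ) (π : ∀ i, K i) {V : Type} [AddCommGroup V] [Module ℂ V]
    (F : V →ₗ[ℂ] V) (hF : Submodule.span ℂ {v : V | (∃ i, ∃ σ : K i →+* ℂ, F v = σ (π i) • v) ∨
      ∃ μ ∈ S, F v = μ • v} = ⊤) : Submodule.span ℂ {v : V | ∃ x, F v = val π S x • v} = ⊤ := by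
  rw [← hF]
  congr 1
  ext v
  constructor
  · rintro ⟨x | μ, h⟩
    · exact Or.inl ⟨x.1, x.2, h⟩
    · exact Or.inr ⟨μ, μ.2, h⟩
  · rintro (⟨i, σ, h⟩ | ⟨μ, hμ, h⟩)
    · exact ⟨Sum.inl ⟨i, σ⟩, h⟩
    · exact ⟨Sum.inr ⟨μ, hμ⟩, h⟩

theorem eigenvalue_small (a : ℕ) (ha : 0 < a) (c : ℝ) (S : Set ℂ)
    {H : ℕ → Type} [∀ b, AddCommGroup (H b)] [∀ b, Module ℂ (H b)]
    [∀ b, FiniteDimensional ℂ (H b)] (G : ∀ b, H b →ₗ[ℂ] H b) (f : ℕ → Polynomial ℤ)
    (hf : ∀ b, (G b).charpoly = (f b).map (Int.castRingHom ℂ))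
    (hw : ∀ b, ∀ z ∈ ((f b).map (Int.castRingHom ℂ)).roots, ‖z‖ = ((p : ℝ) ^ a) ^ b)
    (hY : ∀ b, Moderate p a b c (f b))
    (hYS : S.Nonempty → ∀ b, Moderate p a b (c / 2) (f b)) (b : ℕ) (ρ : ℂ)
    (h : Module.End.HasEigenvalue (G b) ρ) : IsIntegral ℤ ρ ∧ ρ ≠ 0 ∧ Small p a b c ρ ∧
      (S.Nonempty → Small p a b (c / 2) ρ) := by
  have hmonic : (f b).Monic := by
    have h1 := (G b).charpoly_monic
    rw [hf b] at h1
    exact Polynomial.monic_of_injective (Int.castRingHom ℂ).injective_int h1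
  have hW : IsWeil p a b (f b) := ⟨hmonic, hw b⟩
  have h1 : ρ ∈ ((f b).map (Int.castRingHom ℂ)).roots := by
    rw [Polynomial.mem_roots (hmonic.map _).ne_zero, ← hf b]
    exact Module.End.hasEigenvalue_iff_isRoot_charpoly _ _ |>.1 h
  exact ⟨integral_root hmonic h1, ne_zero_root hW h1,
    small_of_moderate ha hW (hY b) ρ h1,
    fun hne => small_of_moderate ha hW (hYS hne b) ρ h1⟩

end Pool.Agent.W484.AS
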